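import Mathlib

/-!
# Alternating cyclic orderings for halfplanes in dual convex position

If the halfplanes can be numbered so that the halfplanes containing a given point form a cyclic
interval (for instance the halfplanes bounded by the sides of a convex polygon), the Hall-type
condition implies that there is an alternating cyclic ordering.  The points are arbitrary.

Proof: in the cyclic order of the halfplanes, `Arr` is obtained from Hall's theorem for points
against gaps `(j, j+1)`.  Two cyclic intervals meet, so a set `X` of points covering `g` gaps meets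
at most `g + 1` halfplanes; with the Hall-type condition this gives Hall's condition except when
`X` is everything and exactly one gap is not covered.  In that case one point `p0` is left out, the
gap of a point `q` of the first halfplane is cut and the path is turned around.
-/

set_option autoImplicit false

namespace Pool.Agent.Results.MP_3b4e7c_co.DualConvexH68

open Finset

section core

variable {n : ℕ}

open Classical in
/-- The gaps `(j, j+1)` covered by a point. -/
noncomputable def G (A : Fin n → ℕ → Prop) (p : Fin n) : Finset ℕ :=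
  (range n).filter fun j => A p j ∧ A p (j + 1)

open Classical in
/-- The (numbers of) halfplanes containing a point. -/
noncomputable def U (A : Fin n → ℕ → Prop) (p : Fin n) : Finset ℕ :=
  (range n).filter fun j => A p j

open Classical in
/-- The halfplanes containing two points of `X`. -/
noncomputable def N2 (A : Fin n → ℕ → Prop) (X : Finset (Fin n)) : Finset ℕ :=
  (range n).filter fun h => 2 ≤ (X.filter fun p => A p h).card

/-- A system of cyclic intervals with the Hall-type condition. -/
structure Sys (n : ℕ) (A : Fin n → ℕ → Prop) : Prop where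
  two : 2 ≤ n
  per : ∀ p x, A p (x + n) ↔ A p x
  cr : ∀ p x y z w, x < y → y < z → z < w → w < x + n → A p x → ¬ A p y → A p z → A p w
  hall : ∀ X : Finset (Fin n), 2 ≤ X.card → X.card ≤ (N2 A X).card

theorem mem_G {A : Fin n → ℕ → Prop} {p : Fin n} {j : ℕ} :
    j ∈ G A p ↔ j < n ∧ A p j ∧ A p (j + 1) := by
  simp [G]

theorem mem_U {A : Fin n → ℕ → Prop} {p : Fin n} {j : ℕ} : j ∈ U A p ↔ j < n ∧ A p j := by
  simp [U]

variable {A : Fin n → ℕ → Prop}

theorem arc (S : Sys n A) {p : Fin n} {w u : ℕ} (hw : A p w) (hu : A p u) (h1 : w ≤ u)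
    (h2 : u < w + n) (hn : ¬ A p (u + 1)) {v : ℕ} (hwv : w ≤ v) (hvu : v ≤ u) : A p v := by
  by_contra hv
  have a1 : w < v := lt_of_le_of_ne hwv (by rintro rfl; exact hv hw)
  have a2 : v < u := lt_of_le_of_ne hvu (by rintro rfl; exact hv hu)
  have a3 : u + 1 < w + n := by
    refine lt_of_le_of_ne h2 ?_
    intro e
    rw [e, S.per] at hn
    exact hn hw
  exact hn (S.cr p w v u (u + 1) a1 a2 (Nat.lt_succ_self u) a3 hw hv hu)

open Classical in
theorem inter (S : Sys n A) {p q : Fin n} (hpq : p ≠ q) :
    2 ≤ ((range n).filter fun h => A p h ∧ A q h).card := by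
  have h := S.hall {p, q} (card_pair hpq).ge
  rw [card_pair hpq] at h
  refine h.trans (card_le_card ?_)
  intro x hx
  unfold N2 at hx
  rw [mem_filter] at hx ⊢
  refine ⟨hx.1, ?_⟩
  by_contra hc
  have h2 := hx.2
  have h1 : (filter (fun r => A r x) {p, q}).card ≤ 1 := by
    rw [card_le_one]
    intro a ha b hb
    rw [mem_filter, mem_insert, mem_singleton] at ha hb
    rcases ha with ⟨rfl | rfl, ha⟩ <;> rcases hb with ⟨rfl | rfl, hb⟩
    · rfl
    · exact absurd ⟨ha, hb⟩ hc
    · exact absurd ⟨hb, ha⟩ hc
    · rfl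
  omega

theorem common (S : Sys n A) (p q : Fin n) : ∃ w, w < n ∧ A p w ∧ A q w := by
  classical
  by_cases hpq : p = q
  · subst hpq
    obtain ⟨r, hr⟩ : ∃ r : Fin n, p ≠ r := by
      have h2 := S.two
      have : Nontrivial (Fin n) := Fin.nontrivial_iff_two_le.mpr h2
      obtain ⟨r, hr⟩ := exists_ne p
      exact ⟨r, hr.symm⟩
    have h := inter S hr
    obtain ⟨w, hw⟩ : ((range n).filter fun h => A p h ∧ A r h).Nonempty :=
      card_pos.mp (by omega)
    rw [mem_filter, mem_range] at hw
    exact ⟨w, hw.1, hw.2.1, hw.2.1⟩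
  · have h := inter S hpq
    obtain ⟨w, hw⟩ : ((range n).filter fun h => A p h ∧ A q h).Nonempty :=
      card_pos.mp (by omega)
    rw [mem_filter, mem_range] at hw
    exact ⟨w, hw.1, hw.2.1, hw.2.2⟩

theorem uniq (S : Sys n A) {X : Finset (Fin n)} {u u' : ℕ} (hu' : u' < n)
    (hlt : u < u') {p q : Fin n} (hp : p ∈ X) (hq : q ∈ X) (hpu : A p u) (hqu : A q u')
    (h1 : ∀ r ∈ X, ¬ (A r u ∧ A r (u + 1))) (h2 : ∀ r ∈ X, ¬ (A r u' ∧ A r (u' + 1))) :
    False := by
  obtain ⟨w, hwn, hpw, hqw⟩ := common S p q
  have e1 : ¬ A p (u + 1) := fun h => h1 p hp ⟨hpu, h⟩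
  have e2 : ¬ A q (u' + 1) := fun h => h2 q hq ⟨hqu, h⟩
  have e1' : ¬ A p (u + n + 1) := by
    rw [show u + n + 1 = (u + 1) + n by ring, S.per]
    exact e1
  have e2' : ¬ A q (u' + n + 1) := by
    rw [show u' + n + 1 = (u' + 1) + n by ring, S.per]
    exact e2
  rcases le_or_gt w u with hwu | hwu
  · -- `w ≤ u < u'`
    apply h1 q hq
    exact ⟨arc S hqw hqu (by omega) (by omega) e2 hwu hlt.le,
      arc S hqw hqu (by omega) (by omega) e2 (by omega) hlt⟩
  · rcases le_or_gt w u' with hwu' | hwu'
    · -- `u < w ≤ u'`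
      apply h2 p hp
      have hpu' : A p (u + n) := (S.per p u).mpr hpu
      exact ⟨arc S hpw hpu' (by omega) (by omega) e1' hwu' (by omega),
        arc S hpw hpu' (by omega) (by omega) e1' (by omega) (by omega)⟩
    · -- `u' < w`
      apply h1 q hq
      have hqu' : A q (u' + n) := (S.per q u').mpr hqu
      have c1 : A q (u + n) := arc S hqw hqu' (by omega) (by omega) e2' (by omega) (by omega)
      have c2 : A q (u + 1 + n) := arc S hqw hqu' (by omega) (by omega) e2' (by omega) (by omega)
      exact ⟨(S.per q u).mp c1, (S.per q (u + 1)).mp c2⟩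

theorem card_U_le (S : Sys n A) (X : Finset (Fin n)) :
    (X.biUnion (U A)).card ≤ (X.biUnion (G A)).card + 1 := by
  classical
  have h : ((X.biUnion (U A)) \ (X.biUnion (G A))).card ≤ 1 := by
    rw [card_le_one]
    have key : ∀ a ∈ (X.biUnion (U A)) \ (X.biUnion (G A)),
        ∀ b ∈ (X.biUnion (U A)) \ (X.biUnion (G A)), ¬ a < b := by
      intro a ha b hb hab
      rw [mem_sdiff, mem_biUnion, mem_biUnion] at ha hb
      obtain ⟨⟨p, hp, hpa⟩, ha2⟩ := ha
      obtain ⟨⟨q, hq, hqb⟩, hb2⟩ := hb
      rw [mem_U] at hpa hqb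
      refine uniq S hqb.1 hab hp hq hpa.2 hqb.2 ?_ ?_
      · intro r hr hc
        exact ha2 ⟨r, hr, mem_G.mpr ⟨hpa.1, hc⟩⟩
      · intro r hr hc
        exact hb2 ⟨r, hr, mem_G.mpr ⟨hqb.1, hc⟩⟩
    intro a ha b hb
    have h1 := key a ha b hb
    have h2 := key b hb a ha
    omega
  have h2 : (X.biUnion (U A)).card ≤
      ((X.biUnion (U A)) \ (X.biUnion (G A))).card + (X.biUnion (G A)).card := by
    rw [← card_union_of_disjoint sdiff_disjoint]
    apply card_le_card
    intro x hx
    rw [mem_union, mem_sdiff]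
    by_cases hx2 : x ∈ X.biUnion (G A)
    · exact Or.inr hx2
    · exact Or.inl ⟨hx, hx2⟩
  omega

theorem N2_insert (X : Finset (Fin n)) (r : Fin n) :
    N2 A (insert r X) ⊆ X.biUnion (U A) := by
  classical
  intro h hh
  unfold N2 at hh
  rw [mem_filter] at hh
  obtain ⟨h1, h2⟩ := hh
  rw [mem_biUnion]
  by_contra hc
  push Not at hc
  have : (filter (fun p => A p h) (insert r X)).card ≤ 1 := by
    rw [card_le_one]
    have key : ∀ a ∈ filter (fun p => A p h) (insert r X), a = r := by
      intro a ha
      rw [mem_filter, mem_insert] at ha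
      rcases ha.1 with rfl | ha1
      · rfl
      · exact absurd (mem_U.mpr ⟨mem_range.mp h1, ha.2⟩) (hc a ha1)
    intro a ha b hb
    rw [key a ha, key b hb]
  omega

theorem one_le_G (S : Sys n A) (p : Fin n) : 1 ≤ (G A p).card := by
  classical
  have h2 := S.two
  have : Nontrivial (Fin n) := Fin.nontrivial_iff_two_le.mpr h2
  obtain ⟨r, hr⟩ := exists_ne p
  have h := inter S hr.symm
  have h3 : ((range n).filter fun h => A p h ∧ A r h).card ≤ (U A p).card := by
    apply card_le_card
    intro x hx
    rw [mem_filter, mem_range] at hx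
    exact mem_U.mpr ⟨hx.1, hx.2.1⟩
  have h4 := card_U_le S {p}
  rw [singleton_biUnion, singleton_biUnion] at h4
  omega

theorem tight (S : Sys n A) {X : Finset (Fin n)} (h : (X.biUnion (G A)).card < X.card) :
    X = univ := by
  classical
  by_contra hX
  obtain ⟨r, hr⟩ : ∃ r, r ∉ X := by
    by_contra hc
    push Not at hc
    exact hX (eq_univ_iff_forall.mpr hc)
  have hpos : 0 < X.card := by omega
  have h1 := S.hall (insert r X) (by rw [card_insert_of_notMem hr]; omega)
  rw [card_insert_of_notMem hr] at h1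
  have h2 := card_le_card (N2_insert (A := A) X r)
  have h3 := card_U_le S X
  omega

/-- An arrangement: `pos p` is the position of the point `p`, `h i` is the halfplane between the
positions `i` and `i + 1`. -/
def Arr (n : ℕ) (A : Fin n → ℕ → Prop) : Prop :=
  ∃ (pos : Fin n → ℕ) (h : ℕ → ℕ), Function.Injective pos ∧ (∀ p, pos p < n) ∧
    (∀ i j, i < n → j < n → h i = h j → i = j) ∧ (∀ i, i < n → h i < n) ∧
    (∀ p, A p (h (pos p))) ∧ (∀ p, A p (h (if pos p = 0 then n - 1 else pos p - 1)))

theorem arr_easy (S : Sys n A)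
    (hG : ∀ X : Finset (Fin n), X.card ≤ (X.biUnion (G A)).card) : Arr n A := by
  classical
  obtain ⟨f, hf, hfG⟩ := (all_card_le_biUnion_card_iff_exists_injective (G A)).mp hG
  have hn := S.two
  have hfn : ∀ p, f p < n := fun p => (mem_G.mp (hfG p)).1
  refine ⟨fun p => if f p = n - 1 then 0 else f p + 1, id, ?_, ?_, fun i j _ _ h => h,
    fun i hi => hi, ?_, ?_⟩
  · intro p p' hpp
    apply hf
    have h1 := hfn p
    have h2 := hfn p'
    simp only at hpp
    split_ifs at hpp with c1 c2 c2 <;> omega
  · intro p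
    have h1 := hfn p
    simp only
    split_ifs with c1 <;> omega
  · intro p
    have h1 := mem_G.mp (hfG p)
    simp only [id]
    split_ifs with c1
    · have h2 := h1.2.2
      rw [c1, show n - 1 + 1 = 0 + n by omega, S.per] at h2
      exact h2
    · exact h1.2.2
  · intro p
    have h1 := mem_G.mp (hfG p)
    have h2 := h1.2.1
    simp only [id]
    by_cases c1 : f p = n - 1
    · simp only [c1, if_true] at h2 ⊢
      exact h2
    · simp only [c1, if_false, Nat.add_sub_cancel]
      rw [if_neg (by omega)]
      exact h2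

theorem arr_of_miss (S : Sys n A) (hmiss : ∀ p, ¬ (A p (n - 1) ∧ A p n)) : Arr n A := by
  classical
  have hn := S.two
  have hcov : N2 A univ = range n := by
    apply eq_of_subset_of_card_le
    · intro x hx
      unfold N2 at hx
      exact (mem_filter.mp hx).1
    · rw [card_range]
      have := S.hall univ (by simpa using hn)
      simpa using this
  have hcov' : ∀ x, x < n → ∃ p, A p x := by
    intro x hx
    have h : x ∈ N2 A univ := by
      rw [hcov]
      exact mem_range.mpr hx
    unfold N2 at h
    rw [mem_filter] at h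
    obtain ⟨p, hp⟩ : (filter (fun p => A p x) univ).Nonempty := card_pos.mp (by omega)
    exact ⟨p, (mem_filter.mp hp).2⟩
  obtain ⟨q, hq⟩ := hcov' 0 (by omega)
  obtain ⟨p0, hp0⟩ := hcov' (n - 1) (by omega)
  have hq' : ¬ A q (n - 1) := fun h => hmiss q ⟨h, by simpa using (S.per q 0).mpr hq⟩
  have hp0' : ¬ A p0 0 := fun h => hmiss p0 ⟨hp0, by simpa using (S.per p0 0).mpr h⟩
  have hqp : q ≠ p0 := by
    rintro rfl
    exact hq' hp0
  have hqi : ∀ w, w < n → A q w → ∀ v, v ≤ w → A q v := by
    intro w hw hqw v hvw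
    by_contra hv
    have a1 : 0 < v := Nat.pos_of_ne_zero (by rintro rfl; exact hv hq)
    have a2 : v < w := lt_of_le_of_ne hvw (by rintro rfl; exact hv hqw)
    have a3 : w < n - 1 := lt_of_le_of_ne (by omega) (by rintro rfl; exact hq' hqw)
    exact hq' (S.cr q 0 v w (n - 1) a1 a2 a3 (by omega) hq hv hqw)
  have hpi : ∀ w, A p0 w → ∀ v, w ≤ v → v ≤ n - 1 → A p0 v := by
    intro w hw v h1 h2
    by_contra hv
    have a0 : 0 < w := Nat.pos_of_ne_zero (by rintro rfl; exact hp0' hw)
    have a1 : w < v := lt_of_le_of_ne h1 (by rintro rfl; exact hv hw)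
    have a2 : v < n - 1 := lt_of_le_of_ne h2 (by rintro rfl; exact hv hp0)
    exact hmiss p0 ⟨hp0, S.cr p0 w v (n - 1) n a1 a2 (by omega) (by omega) hw hv hp0⟩
  -- a common halfplane lies in a common gap
  have hgap : ∀ x, x < n → A q x → A p0 x →
      (x ∈ G A q ∩ G A p0) ∨ (0 < x ∧ x - 1 ∈ G A q ∩ G A p0) := by
    intro x hx hqx hpx
    have h2 := inter S hqp
    obtain ⟨y, hy, hyx⟩ := exists_mem_ne (by omega :
      1 < ((range n).filter fun h => A q h ∧ A p0 h).card) x
    rw [mem_filter, mem_range] at hy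
    obtain ⟨hyn, hqy, hpy⟩ := hy
    rcases lt_or_gt_of_ne hyx with h | h
    · right
      refine ⟨by omega, ?_⟩
      rw [mem_inter, mem_G, mem_G, show x - 1 + 1 = x by omega]
      exact ⟨⟨by omega, hqi x hx hqx _ (by omega), hqx⟩,
        ⟨by omega, hpi y hpy _ (by omega) (by omega), hpx⟩⟩
    · left
      rw [mem_inter, mem_G, mem_G]
      exact ⟨⟨hx, hqx, hqi y hyn hqy _ (by omega)⟩,
        ⟨hx, hpx, hpi x hpx _ (by omega) (by omega)⟩⟩
  set t : Fin n → Finset ℕ := fun p => if p = q then G A q ∩ G A p0 else G A p with ht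
  have htG : ∀ p, t p ⊆ G A p := by
    intro p
    rw [ht]
    dsimp only
    split_ifs with c
    · rw [c]
      exact inter_subset_left
    · exact Subset.refl _
  -- Hall's condition without `p0`
  have hY : ∀ Y : Finset (Fin n), p0 ∉ Y → Y.card ≤ (Y.biUnion t).card := by
    intro Y hp0Y
    have hne : ∀ Z : Finset (Fin n), p0 ∉ Z → Z.card ≤ (Z.biUnion (G A)).card := by
      intro Z hZ
      by_contra hc
      push Not at hc
      rw [tight S hc] at hZ
      exact hZ (mem_univ _)
    by_cases hqY : q ∈ Y
    · set X := Y.erase q with hX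
      have hqX : q ∉ X := notMem_erase q Y
      have hpX : p0 ∉ X := fun h => hp0Y (mem_of_mem_erase h)
      have hYX : Y = insert q X := (insert_erase hqY).symm
      have hbi : Y.biUnion t = (G A q ∩ G A p0) ∪ X.biUnion (G A) := by
        rw [hYX, biUnion_insert]
        congr 1
        · rw [ht]
          simp
        · apply biUnion_congr rfl
          intro a ha
          rw [ht]
          dsimp only
          rw [if_neg]
          rintro rfl
          exact hqX ha
      rw [hbi, hYX, card_insert_of_notMem hqX]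
      by_contra hc
      push Not at hc
      have h1 := hne X hpX
      have h2 : (X.biUnion (G A)) = (G A q ∩ G A p0) ∪ X.biUnion (G A) :=
        eq_of_subset_of_card_le subset_union_right (by omega)
      have h3 : G A q ∩ G A p0 ⊆ X.biUnion (G A) := by
        rw [h2]
        exact subset_union_left
      have h4 : (X.biUnion (G A)).card = X.card := by
        apply le_antisymm _ h1
        have := card_le_card (subset_union_right :
          X.biUnion (G A) ⊆ (G A q ∩ G A p0) ∪ X.biUnion (G A))
        omega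
      have h5 := card_U_le S X
      have h6 := S.hall (insert p0 (insert q X)) (by
        rw [card_insert_of_notMem, card_insert_of_notMem hqX]
        · omega
        · rw [mem_insert]
          rintro (h | h)
          · exact hqp h.symm
          · exact hpX h)
      rw [card_insert_of_notMem (by
        rw [mem_insert]
        rintro (h | h)
        · exact hqp h.symm
        · exact hpX h), card_insert_of_notMem hqX] at h6
      obtain ⟨x, hx1, hx2⟩ : ∃ x ∈ N2 A (insert p0 (insert q X)), x ∉ X.biUnion (U A) := by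
        by_contra hcon
        push Not at hcon
        have := card_le_card hcon
        omega
      have hxU : ∀ a ∈ X, x < n → ¬ A a x := by
        intro a ha hxn hax
        exact hx2 (mem_biUnion.mpr ⟨a, ha, mem_U.mpr ⟨hxn, hax⟩⟩)
      unfold N2 at hx1
      rw [mem_filter, mem_range] at hx1
      obtain ⟨hxn, hx3⟩ := hx1
      have hsub : filter (fun p => A p x) (insert p0 (insert q X)) ⊆ {p0, q} := by
        intro a ha
        rw [mem_filter, mem_insert, mem_insert] at ha
        rw [mem_insert, mem_singleton]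
        rcases ha with ⟨h | h | h, ha⟩
        · exact Or.inl h
        · exact Or.inr h
        · exact absurd ha (hxU a h hxn)
      have heq : filter (fun p => A p x) (insert p0 (insert q X)) = {p0, q} :=
        eq_of_subset_of_card_le hsub ((card_pair (Ne.symm hqp)).le.trans hx3)
      have hp0x : A p0 x := by
        have : p0 ∈ filter (fun p => A p x) (insert p0 (insert q X)) := by
          rw [heq]
          simp
        exact (mem_filter.mp this).2
      have hqx : A q x := by
        have : q ∈ filter (fun p => A p x) (insert p0 (insert q X)) := by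
          rw [heq]
          simp
        exact (mem_filter.mp this).2
      rcases hgap x hxn hqx hp0x with h | ⟨hpos, h⟩
      · obtain ⟨a, ha, hax⟩ := mem_biUnion.mp (h3 h)
        exact hxU a ha hxn (mem_G.mp hax).2.1
      · obtain ⟨a, ha, hax⟩ := mem_biUnion.mp (h3 h)
        have h7 := (mem_G.mp hax).2.2
        rw [show x - 1 + 1 = x by omega] at h7
        exact hxU a ha hxn h7
    · have hbi : Y.biUnion t = Y.biUnion (G A) := by
        apply biUnion_congr rfl
        intro a ha
        rw [ht]
        dsimp only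
        rw [if_neg]
        rintro rfl
        exact hqY ha
      rw [hbi]
      exact hne Y hp0Y
  -- Hall's condition with `p0` sent to the missing gap
  set T : Fin n → Finset ℕ := fun p => if p = p0 then {n - 1} else t p with hT
  have hHall : ∀ X : Finset (Fin n), X.card ≤ (X.biUnion T).card := by
    intro X
    by_cases hX : p0 ∈ X
    · set Y := X.erase p0 with hYdef
      have hpY : p0 ∉ Y := notMem_erase p0 X
      have hXY : X = insert p0 Y := (insert_erase hX).symm
      have hbi : X.biUnion T = {n - 1} ∪ Y.biUnion t := by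
        rw [hXY, biUnion_insert]
        congr 1
        · rw [hT]
          simp
        · apply biUnion_congr rfl
          intro a ha
          rw [hT]
          dsimp only
          rw [if_neg]
          rintro rfl
          exact hpY ha
      rw [hbi, hXY, card_insert_of_notMem hpY, card_union_of_disjoint, card_singleton]
      · have := hY Y hpY
        omega
      · rw [disjoint_singleton_left, mem_biUnion]
        rintro ⟨a, -, ha⟩
        have h := mem_G.mp (htG a ha)
        refine hmiss a ⟨h.2.1, ?_⟩
        have h2 := h.2.2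
        rwa [show n - 1 + 1 = n by omega] at h2
    · have hbi : X.biUnion T = X.biUnion t := by
        apply biUnion_congr rfl
        intro a ha
        rw [hT]
        dsimp only
        rw [if_neg]
        rintro rfl
        exact hX ha
      rw [hbi]
      exact hY X hX
  obtain ⟨f, hf, hfT⟩ := (all_card_le_biUnion_card_iff_exists_injective T).mp hHall
  have hfp0 : f p0 = n - 1 := by
    have h := hfT p0
    rw [hT] at h
    simpa using h
  have hft : ∀ p, p ≠ p0 → f p ∈ t p := by
    intro p hp
    have h := hfT p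
    rw [hT] at h
    simpa [hp] using h
  have hfq : f q ∈ G A q ∩ G A p0 := by
    have h := hft q hqp
    rw [ht] at h
    simpa using h
  have hfG : ∀ p, p ≠ p0 → f p ∈ G A p := fun p hp => htG p (hft p hp)
  have hlt : ∀ p, p ≠ p0 → f p < n - 1 := by
    intro p hp
    have h1 := (mem_G.mp (hfG p hp)).1
    have h2 : f p ≠ n - 1 := by
      rw [← hfp0]
      exact fun h => hp (hf h)
    omega
  have hj : f q < n - 1 := hlt q hqp
  have hneq : ∀ p, p ≠ q → f p ≠ f q := fun p hp h => hp (hf h)
  obtain ⟨j, hjdef⟩ : ∃ j, j = f q + 1 := ⟨_, rfl⟩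
  refine ⟨fun p => if p = q then 0 else if p = p0 then j else
    if f p + 1 < j then f p + 1 else n + j - (f p + 1),
    fun i => if i < j then i else n + j - 1 - i, ?_, ?_, ?_, ?_, ?_, ?_⟩
  · intro p p' hpp
    simp only at hpp
    by_contra hne
    have b1 : f p ≠ f p' := fun h => hne (hf h)
    by_cases c1 : p = q
    · by_cases c2 : p' = q
      · exact hne (c1.trans c2.symm)
      · by_cases c3 : p' = p0
        · rw [if_pos c1, if_neg c2, if_pos c3] at hpp
          omega
        · rw [if_pos c1, if_neg c2, if_neg c3] at hpp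
          have := hlt p' c3
          split_ifs at hpp <;> omega
    · by_cases c2 : p' = q
      · by_cases c3 : p = p0
        · rw [if_pos c2, if_neg c1, if_pos c3] at hpp
          omega
        · rw [if_pos c2, if_neg c1, if_neg c3] at hpp
          have := hlt p c3
          split_ifs at hpp <;> omega
      · have d1 := hneq p c1
        have d2 := hneq p' c2
        by_cases c3 : p = p0
        · by_cases c4 : p' = p0
          · exact hne (c3.trans c4.symm)
          · rw [if_neg c1, if_neg c2, if_pos c3, if_neg c4] at hpp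
            have := hlt p' c4
            split_ifs at hpp <;> omega
        · by_cases c4 : p' = p0
          · rw [if_neg c1, if_neg c2, if_neg c3, if_pos c4] at hpp
            have := hlt p c3
            split_ifs at hpp <;> omega
          · rw [if_neg c1, if_neg c2, if_neg c3, if_neg c4] at hpp
            have e1 := hlt p c3
            have e2 := hlt p' c4
            split_ifs at hpp <;> omega
  · intro p
    simp only
    by_cases c1 : p = q
    · rw [if_pos c1]
      omega
    · by_cases c2 : p = p0
      · rw [if_neg c1, if_pos c2]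
        omega
      · rw [if_neg c1, if_neg c2]
        have := hlt p c2
        have := hneq p c1
        split_ifs <;> omega
  · intro i i' hi hi' h
    simp only at h
    split_ifs at h <;> omega
  · intro i hi
    simp only
    split_ifs <;> omega
  · intro p
    simp only
    by_cases c1 : p = q
    · rw [if_pos c1, if_pos (by omega : 0 < j), c1]
      exact hq
    · by_cases c2 : p = p0
      · rw [if_neg c1, if_pos c2, if_neg (lt_irrefl j), show n + j - 1 - j = n - 1 by omega, c2]
        exact hp0
      · rw [if_neg c1, if_neg c2]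
        have e1 := hlt p c2
        have e2 := hneq p c1
        have e3 := mem_G.mp (hfG p c2)
        by_cases c3 : f p + 1 < j
        · rw [if_pos c3, if_pos c3]
          exact e3.2.2
        · rw [if_neg c3, if_neg (by omega),
            show n + j - 1 - (n + j - (f p + 1)) = f p by omega]
          exact e3.2.1
  · intro p
    simp only
    by_cases c1 : p = q
    · rw [if_pos c1, if_pos rfl, if_neg (by omega), show n + j - 1 - (n - 1) = f q + 1 by omega,
        c1]
      exact (mem_G.mp (mem_inter.mp hfq).1).2.2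
    · by_cases c2 : p = p0
      · rw [if_neg c1, if_pos c2, if_neg (by omega : ¬ j = 0), if_pos (by omega),
          show j - 1 = f q by omega, c2]
        exact (mem_G.mp (mem_inter.mp hfq).2).2.1
      · rw [if_neg c1, if_neg c2]
        have e1 := hlt p c2
        have e2 := hneq p c1
        have e3 := mem_G.mp (hfG p c2)
        by_cases c3 : f p + 1 < j
        · rw [if_pos c3, if_neg (by omega : ¬ (f p + 1 = 0)),
            if_pos (by omega : f p + 1 - 1 < j), show f p + 1 - 1 = f p by omega]
          exact e3.2.1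
        · rw [if_neg c3, if_neg (by omega : ¬ (n + j - (f p + 1) = 0)),
            if_neg (by omega : ¬ (n + j - (f p + 1) - 1 < j)),
            show n + j - 1 - (n + j - (f p + 1) - 1) = f p + 1 by omega]
          exact e3.2.2

theorem per_mod (hper : ∀ p x, A p (x + n) ↔ A p x) (p : Fin n) (x : ℕ) :
    A p (x % n) ↔ A p x := by
  have h : Function.Periodic (A p) n := fun y => propext (hper p y)
  rw [h.map_mod_nat]

theorem card_shift (P : ℕ → Prop) [DecidablePred P] (hP : ∀ x, P (x + n) ↔ P x) (c : ℕ) :
    ((range n).filter fun x => P (x + c)).card = ((range n).filter P).card := by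
  have h : Function.Periodic P n := fun y => propext (hP y)
  have h1 := Nat.filter_Ico_card_eq_of_periodic c n P h
  have h2 := Nat.filter_Ico_card_eq_of_periodic 0 n P h
  rw [← h1] at h2
  rw [zero_add, ← range_eq_Ico] at h2
  rw [h2]
  apply card_bij (fun x _ => x + c)
  · intro a ha
    rw [mem_filter, mem_range] at ha
    rw [mem_filter, mem_Ico]
    exact ⟨⟨by omega, by omega⟩, ha.2⟩
  · intro a _ b _ hab
    omega
  · intro b hb
    rw [mem_filter, mem_Ico] at hb
    refine ⟨b - c, ?_, by omega⟩
    rw [mem_filter, mem_range, show b - c + c = b by omega]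
    exact ⟨by omega, hb.2⟩

theorem arr (S : Sys n A) : Arr n A := by
  classical
  have hn := S.two
  by_cases hG : ∀ X : Finset (Fin n), X.card ≤ (X.biUnion (G A)).card
  · exact arr_easy S hG
  push Not at hG
  obtain ⟨X, hX⟩ := hG
  have hXu := tight S hX
  rw [hXu, card_univ, Fintype.card_fin] at hX
  obtain ⟨v, hv1, hv2⟩ : ∃ v ∈ range n, v ∉ (univ : Finset (Fin n)).biUnion (G A) := by
    by_contra hc
    push Not at hc
    have := card_le_card hc
    rw [card_range] at this
    omega
  rw [mem_range] at hv1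
  have hv3 : ∀ p, ¬ (A p v ∧ A p (v + 1)) := by
    intro p hp
    exact hv2 (mem_biUnion.mpr ⟨p, mem_univ _, mem_G.mpr ⟨hv1, hp⟩⟩)
  set c := v + 1 with hc
  have S' : Sys n (fun p x => A p (x + c)) := by
    refine ⟨hn, ?_, ?_, ?_⟩
    · intro p x
      rw [show x + n + c = x + c + n by ring]
      exact S.per p (x + c)
    · intro p x y z w h1 h2 h3 h4 hx hy hz
      exact S.cr p (x + c) (y + c) (z + c) (w + c) (by omega) (by omega) (by omega) (by omega)
        hx hy hz
    · intro X hX
      have h := S.hall X hX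
      have h2 := card_shift (n := n) (fun x => 2 ≤ (X.filter fun p => A p x).card)
        (by
          intro x
          have : (X.filter fun p => A p (x + n)) = X.filter fun p => A p x :=
            filter_congr fun p _ => S.per p x
          rw [this]) c
      unfold N2 at h ⊢
      rw [h2]
      exact h
  have hmiss : ∀ p, ¬ ((fun p x => A p (x + c)) p (n - 1) ∧ (fun p x => A p (x + c)) p n) := by
    intro p hp
    apply hv3 p
    obtain ⟨h1, h2⟩ := hp
    rw [show n - 1 + c = v + n by omega, S.per] at h1
    rw [show n + c = v + 1 + n by omega, S.per] at h2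
    exact ⟨h1, h2⟩
  obtain ⟨pos, h, k1, k2, k3, k4, k5, k6⟩ := arr_of_miss S' hmiss
  refine ⟨pos, fun i => (h i + c) % n, k1, k2, ?_, ?_, ?_, ?_⟩
  · intro i j hi hj hij
    apply k3 i j hi hj
    have h1 : h i + c ≡ h j + c [MOD n] := hij
    have h2 := Nat.ModEq.add_right_cancel' c h1
    have h3 : h i % n = h j % n := h2
    rwa [Nat.mod_eq_of_lt (k4 i hi), Nat.mod_eq_of_lt (k4 j hj)] at h3
  · intro i _
    exact Nat.mod_lt _ (by omega)
  · intro p
    simp only
    rw [per_mod S.per]
    exact k5 p
  · intro p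
    simp only
    rw [per_mod S.per]
    exact k6 p

end core

/-! ### The statement -/

open Classical in
/-- The Hall-type condition. -/
def HallType {n : ℕ} (p : Fin n → ℝ × ℝ) (H : Fin n → Set (ℝ × ℝ)) : Prop :=
  ∀ X : Finset (Fin n), 2 ≤ X.card →
    X.card ≤ (univ.filter fun h => 2 ≤ (X.filter fun i => p i ∈ H h).card).card

/-- There is an alternating cyclic ordering `p (σ 0), H (τ 0), p (σ 1), H (τ 1), …`
(`finRotate n i` is `i + 1` modulo `n`). -/
def HasAlternatingOrdering {n : ℕ} (p : Fin n → ℝ × ℝ) (H : Fin n → Set (ℝ × ℝ)) : Prop :=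
  ∃ σ τ : Equiv.Perm (Fin n), ∀ i : Fin n, p (σ i) ∈ H (τ i) ∧ p (σ (finRotate n i)) ∈ H (τ i)

/-- For every point of the family, the halfplanes containing it form a cyclic interval of the
numbering: no four halfplanes `i < j < k < l` are such that the point lies in `H i` and `H k` but
not in `H j` and `H l`, or in `H j` and `H l` but not in `H i` and `H k`. -/
def CyclicIntervals {n : ℕ} (p : Fin n → ℝ × ℝ) (H : Fin n → Set (ℝ × ℝ)) : Prop :=
  ∀ (t : Fin n) (i j k l : Fin n), i < j → j < k → k < l →
    (p t ∈ H i → p t ∈ H k → p t ∈ H j ∨ p t ∈ H l) ∧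
    (p t ∈ H j → p t ∈ H l → p t ∈ H i ∨ p t ∈ H k)

theorem wrap {n x y : ℕ} (hn : 0 < n) (h1 : x < y) (h2 : y < x + n) :
    (x % n < y % n ∧ y + x % n = x + y % n) ∨
      (y % n < x % n ∧ y + x % n = x + y % n + n) := by
  have a1 := Nat.div_add_mod x n
  have a2 := Nat.div_add_mod y n
  have b1 := Nat.mod_lt x hn
  have b2 := Nat.mod_lt y hn
  have c1 : x / n ≤ y / n := Nat.div_le_div_right h1.le
  have c2 : y / n ≤ x / n + 1 := by
    rw [← Nat.add_div_right x hn]
    exact Nat.div_le_div_right h2.le
  rcases Nat.lt_or_ge (x / n) (y / n) with h | h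
  · have e : y / n = x / n + 1 := by omega
    rw [e, Nat.mul_add, Nat.mul_one] at a2
    right
    constructor <;> omega
  · have e : y / n = x / n := by omega
    rw [e] at a2
    left
    constructor <;> omega

theorem sys_of {n : ℕ} (hn : 2 ≤ n) {p : Fin n → ℝ × ℝ} {H : Fin n → Set (ℝ × ℝ)}
    (hA : HallType p H) (hC : CyclicIntervals p H) :
    Sys n (fun t x => p t ∈ H ⟨x % n, Nat.mod_lt x (by omega)⟩) := by
  classical
  have hn0 : 0 < n := by omega
  refine ⟨hn, ?_, ?_, ?_⟩
  · intro t x
    simp only [Nat.add_mod_right]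
  · intro t x y z w hxy hyz hzw hwx hx hy hz
    have w1 := wrap hn0 hxy (by omega)
    have w2 := wrap hn0 (by omega : x < z) (by omega)
    have w3 := wrap hn0 (by omega : x < w) hwx
    have b1 := Nat.mod_lt x hn0
    have b2 := Nat.mod_lt y hn0
    have b3 := Nat.mod_lt z hn0
    have b4 := Nat.mod_lt w hn0
    set a := x % n with ha
    set b := y % n with hb
    set c := z % n with hc
    set d := w % n with hd
    have hcases : (a < b ∧ b < c ∧ c < d) ∨ (d < a ∧ a < b ∧ b < c) ∨ (c < d ∧ d < a ∧ a < b) ∨
        (b < c ∧ c < d ∧ d < a) := by omega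
    rcases hcases with ⟨h1, h2, h3⟩ | ⟨h1, h2, h3⟩ | ⟨h1, h2, h3⟩ | ⟨h1, h2, h3⟩
    · rcases (hC t ⟨a, b1⟩ ⟨b, b2⟩ ⟨c, b3⟩ ⟨d, b4⟩ h1 h2 h3).1 hx hz with h | h
      · exact absurd h hy
      · exact h
    · rcases (hC t ⟨d, b4⟩ ⟨a, b1⟩ ⟨b, b2⟩ ⟨c, b3⟩ h1 h2 h3).2 hx hz with h | h
      · exact h
      · exact absurd h hy
    · rcases (hC t ⟨c, b3⟩ ⟨d, b4⟩ ⟨a, b1⟩ ⟨b, b2⟩ h1 h2 h3).1 hz hx with h | h
      · exact h
      · exact absurd h hy
    · rcases (hC t ⟨b, b2⟩ ⟨c, b3⟩ ⟨d, b4⟩ ⟨a, b1⟩ h1 h2 h3).2 hz hx with h | h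
      · exact absurd h hy
      · exact h
  · intro X hX
    refine (hA X hX).trans ?_
    unfold N2
    apply card_le_card_of_injOn (fun h : Fin n => (h : ℕ))
    · intro h hh
      simp only [coe_filter, mem_univ, true_and, Set.mem_ofPred_eq] at hh
      simp only [coe_filter, mem_range, Set.mem_ofPred_eq]
      refine ⟨h.2, ?_⟩
      have e : (⟨(h : ℕ) % n, Nat.mod_lt _ hn0⟩ : Fin n) = h :=
        Fin.ext (Nat.mod_eq_of_lt h.2)
      rw [e]
      exact hh
    · intro a _ b _ hab
      exact Fin.ext hab

theorem main {n : ℕ} (hn : 2 ≤ n) {p : Fin n → ℝ × ℝ} {H : Fin n → Set (ℝ × ℝ)}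
    (hA : HallType p H) (hC : CyclicIntervals p H) : HasAlternatingOrdering p H := by
  have hn0 : 0 < n := by omega
  obtain ⟨pos, h, k1, k2, k3, k4, k5, k6⟩ := arr (sys_of hn hA hC)
  have i1 : Function.Injective (fun t : Fin n => (⟨pos t, k2 t⟩ : Fin n)) := by
    intro a b hab
    exact k1 (Fin.mk.inj_iff.mp hab)
  have i2 : Function.Injective (fun t : Fin n => (⟨h t, k4 t t.2⟩ : Fin n)) := by
    intro a b hab
    exact Fin.ext (k3 a b a.2 b.2 (Fin.mk.inj_iff.mp hab))
  have j1 : Function.Bijective (fun t : Fin n => (⟨pos t, k2 t⟩ : Fin n)) :=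
    Finite.injective_iff_bijective.mp i1
  have j2 : Function.Bijective (fun t : Fin n => (⟨h t, k4 t t.2⟩ : Fin n)) :=
    Finite.injective_iff_bijective.mp i2
  refine ⟨(Equiv.ofBijective _ j1).symm, Equiv.ofBijective _ j2, ?_⟩
  have hpos : ∀ i : Fin n, pos ((Equiv.ofBijective _ j1).symm i) = i := by
    intro i
    have := (Equiv.ofBijective _ j1).apply_symm_apply i
    rw [Equiv.ofBijective_apply] at this
    exact congrArg Fin.val this
  have hmod : ∀ x : ℕ, (hx : x < n) → (⟨x % n, Nat.mod_lt x hn0⟩ : Fin n) = ⟨x, hx⟩ :=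
    fun x hx => Fin.ext (Nat.mod_eq_of_lt hx)
  intro i
  rw [Equiv.ofBijective_apply]
  constructor
  · have h1 := k5 ((Equiv.ofBijective _ j1).symm i)
    simp only at h1
    rw [hmod _ (k4 _ (k2 _))] at h1
    have e : (⟨h (pos ((Equiv.ofBijective _ j1).symm i)), k4 _ (k2 _)⟩ : Fin n) =
        ⟨h i, k4 i i.2⟩ := Fin.ext (by simp only [hpos])
    rw [e] at h1
    exact h1
  · have h1 := k6 ((Equiv.ofBijective _ j1).symm (finRotate n i))
    simp only at h1
    have e : (if pos ((Equiv.ofBijective _ j1).symm (finRotate n i)) = 0 then n - 1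
        else pos ((Equiv.ofBijective _ j1).symm (finRotate n i)) - 1) = (i : ℕ) := by
      rw [hpos]
      obtain ⟨m, rfl⟩ : ∃ m, n = m + 1 := ⟨n - 1, by omega⟩
      rw [finRotate_apply]
      by_cases hi : i = Fin.last m
      · subst hi
        simp
      · rw [Fin.val_add_one_of_lt (Fin.lt_last_iff_ne_last.mpr hi)]
        simp
    rw [e] at h1
    rw [hmod _ (k4 _ i.2)] at h1
    exact h1

/-! ### Geometric families -/

/-- Twice the signed area of a triangle. -/
def area2 (a b c : ℝ × ℝ) : ℝ := (b.1 - a.1) * (c.2 - a.2) - (b.2 - a.2) * (c.1 - a.1)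

/-- The points are, in this order, the vertices of a strictly convex polygon (counterclockwise). -/
def ConvexOrder {n : ℕ} (p : Fin n → ℝ × ℝ) : Prop :=
  ∀ i j k : Fin n, i < j → j < k → 0 < area2 (p i) (p j) (p k)

/-- Determinant of three lines. -/
def det3 (a b c : ℝ × ℝ × ℝ) : ℝ :=
  a.1 * (b.2.1 * c.2.2 - b.2.2 * c.2.1) - a.2.1 * (b.1 * c.2.2 - b.2.2 * c.1) +
    a.2.2 * (b.1 * c.2.1 - b.2.1 * c.1)

/-- Coefficients of the line through two points. -/
def line (P Q : ℝ × ℝ) : ℝ × ℝ × ℝ :=
  (-(Q.2 - P.2), Q.1 - P.1, -(Q.1 - P.1) * P.2 + (Q.2 - P.2) * P.1)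

theorem det_adj (P Q R A B : ℝ × ℝ) :
    det3 (line P Q) (line Q R) (line A B) = area2 P Q R * area2 Q A B := by
  unfold det3 line area2
  ring

theorem det_rot (a b c : ℝ × ℝ × ℝ) : det3 a b c = det3 b c a := by
  unfold det3
  ring

theorem area_rot (a b c : ℝ × ℝ) : area2 a b c = area2 b c a := by
  unfold area2
  ring

theorem plucker (a b j k l : ℝ × ℝ × ℝ) :
    det3 a b k * det3 a j l = det3 a b j * det3 a k l + det3 a b l * det3 a j k := by
  unfold det3
  ring

theorem line_eval (P Q R S P' Q' R' S' x : ℝ × ℝ) :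
    det3 (line Q Q') (line R R') (line S S') * area2 P P' x +
      det3 (line P P') (line Q Q') (line S S') * area2 R R' x =
    det3 (line P P') (line R R') (line S S') * area2 Q Q' x +
      det3 (line P P') (line Q Q') (line R R') * area2 S S' x := by
  unfold det3 line area2
  ring

theorem det_pos {n : ℕ} (q : ℕ → ℝ × ℝ) (h1 : ∀ a b c, a < b → b < c → c < n → 0 < area2 (q a) (q b) (q c))
    (h2 : ∀ a b, 0 < a → a < b → b < n → 0 < area2 (q a) (q b) (q n)) (i j k : ℕ)
    (hij : i < j) (hjk : j < k) (hk : k < n) :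
    0 < det3 (line (q i) (q (i + 1))) (line (q j) (q (j + 1))) (line (q k) (q (k + 1))) := by
  have hp : ∀ a b c, a < b → b < c → c ≤ n → 0 < a → 0 < area2 (q a) (q b) (q c) := by
    intro a b c hab hbc hc ha
    rcases Nat.lt_or_ge c n with h | h
    · exact h1 a b c hab hbc h
    · obtain rfl : c = n := le_antisymm hc h
      exact h2 a b ha hab hbc
  -- consecutive second and third line
  have hA : ∀ j, i < j → j + 1 < n →
      0 < det3 (line (q i) (q (i + 1))) (line (q j) (q (j + 1))) (line (q (j + 1)) (q (j + 1 + 1))) := by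
    intro j hj hjn
    rw [det_rot, det_adj]
    apply mul_pos
    · exact hp j (j + 1) (j + 1 + 1) (by omega) (by omega) (by omega) (by omega)
    · rw [area_rot]
      exact h1 i (i + 1) (j + 1) (by omega) (by omega) hjn
  have hB : ∀ k, i + 1 < k → k < n →
      0 < det3 (line (q i) (q (i + 1))) (line (q (i + 1)) (q (i + 1 + 1))) (line (q k) (q (k + 1))) := by
    intro k hk hkn
    rw [det_adj]
    apply mul_pos
    · exact h1 i (i + 1) (i + 1 + 1) (by omega) (by omega) (by omega)
    · exact hp (i + 1) k (k + 1) hk (by omega) (by omega) (by omega)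
  rcases Nat.lt_or_ge (i + 1) j with h | h
  · induction k, hjk using Nat.le_induction with
    | base => exact hA j hij hk
    | succ k hk1 ih =>
      have ih' := ih (by omega)
      have e := plucker (line (q i) (q (i + 1))) (line (q (i + 1)) (q (i + 1 + 1)))
        (line (q j) (q (j + 1))) (line (q k) (q (k + 1))) (line (q (k + 1)) (q (k + 1 + 1)))
      have b1 := hB k (by omega) (by omega)
      have b2 := hB j h (by omega)
      have b3 := hB (k + 1) (by omega) hk
      have a1 := hA k (by omega) hk
      have : 0 < det3 (line (q i) (q (i + 1))) (line (q (i + 1)) (q (i + 1 + 1)))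
          (line (q k) (q (k + 1))) * det3 (line (q i) (q (i + 1))) (line (q j) (q (j + 1)))
          (line (q (k + 1)) (q (k + 1 + 1))) := by
        rw [e]
        positivity
      exact (pos_iff_pos_of_mul_pos this).mp b1
  · obtain rfl : j = i + 1 := by omega
    exact hB k hjk hk

/-- The four signs. -/
def SignSet (m : Fin 4) (g : ℝ) : Prop :=
  if m = 0 then 0 ≤ g else if m = 1 then 0 < g else if m = 2 then g ≤ 0 else g < 0

theorem sign_cross (m : Fin 4) {a b c d g1 g2 g3 g4 : ℝ} (ha : 0 < a) (hb : 0 < b) (hc : 0 < c)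
    (hd : 0 < d) (h : a * g1 + c * g3 = b * g2 + d * g4) :
    (SignSet m g1 → SignSet m g3 → SignSet m g2 ∨ SignSet m g4) ∧
      (SignSet m g2 → SignSet m g4 → SignSet m g1 ∨ SignSet m g3) := by
  fin_cases m
  · simp only [SignSet, Fin.zero_eta, if_true]
    constructor
    · intro h1 h3
      by_contra hcon
      push Not at hcon
      nlinarith [mul_nonneg ha.le h1, mul_nonneg hc.le h3, mul_neg_of_pos_of_neg hb hcon.1,
        mul_neg_of_pos_of_neg hd hcon.2]
    · intro h1 h3
      by_contra hcon
      push Not at hcon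
      nlinarith [mul_nonneg hb.le h1, mul_nonneg hd.le h3, mul_neg_of_pos_of_neg ha hcon.1,
        mul_neg_of_pos_of_neg hc hcon.2]
  · simp only [SignSet, Fin.mk_one, one_ne_zero, if_false, if_true]
    constructor
    · intro h1 h3
      by_contra hcon
      push Not at hcon
      nlinarith [mul_pos ha h1, mul_pos hc h3, mul_nonpos_of_nonneg_of_nonpos hb.le hcon.1,
        mul_nonpos_of_nonneg_of_nonpos hd.le hcon.2]
    · intro h1 h3
      by_contra hcon
      push Not at hcon
      nlinarith [mul_pos hb h1, mul_pos hd h3, mul_nonpos_of_nonneg_of_nonpos ha.le hcon.1,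
        mul_nonpos_of_nonneg_of_nonpos hc.le hcon.2]
  · simp only [SignSet, Fin.reduceFinMk, Fin.reduceEq, if_false, if_true]
    constructor
    · intro h1 h3
      by_contra hcon
      push Not at hcon
      nlinarith [mul_nonpos_of_nonneg_of_nonpos ha.le h1, mul_nonpos_of_nonneg_of_nonpos hc.le h3,
        mul_pos hb hcon.1, mul_pos hd hcon.2]
    · intro h1 h3
      by_contra hcon
      push Not at hcon
      nlinarith [mul_nonpos_of_nonneg_of_nonpos hb.le h1, mul_nonpos_of_nonneg_of_nonpos hd.le h3,
        mul_pos ha hcon.1, mul_pos hc hcon.2]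
  · simp only [SignSet, Fin.reduceFinMk, Fin.reduceEq, if_false]
    constructor
    · intro h1 h3
      by_contra hcon
      push Not at hcon
      nlinarith [mul_neg_of_pos_of_neg ha h1, mul_neg_of_pos_of_neg hc h3,
        mul_nonneg hb.le hcon.1, mul_nonneg hd.le hcon.2]
    · intro h1 h3
      by_contra hcon
      push Not at hcon
      nlinarith [mul_neg_of_pos_of_neg hb h1, mul_neg_of_pos_of_neg hd h3,
        mul_nonneg ha.le hcon.1, mul_nonneg hc.le hcon.2]

theorem polygon_rel {n : ℕ} {q : Fin n → ℝ × ℝ} (hq : ConvexOrder q) {i j k l : Fin n}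
    (hij : i < j) (hjk : j < k) (hkl : k < l) (x : ℝ × ℝ) :
    ∃ a b c d : ℝ, 0 < a ∧ 0 < b ∧ 0 < c ∧ 0 < d ∧
      a * area2 (q i) (q (finRotate n i)) x + c * area2 (q k) (q (finRotate n k)) x =
        b * area2 (q j) (q (finRotate n j)) x + d * area2 (q l) (q (finRotate n l)) x := by
  have hn0 : 0 < n := lt_of_le_of_lt (Nat.zero_le _) i.2
  set q' : ℕ → ℝ × ℝ := fun m => q ⟨m % n, Nat.mod_lt m hn0⟩ with hq'
  have e1 : ∀ m : Fin n, q m = q' m := by
    intro m
    rw [hq']
    dsimp only
    congr 1
    exact Fin.ext (Nat.mod_eq_of_lt m.2).symm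
  have e2 : ∀ m : Fin n, q (finRotate n m) = q' (m + 1) := by
    intro m
    rw [hq']
    dsimp only
    congr 1
    obtain ⟨r, rfl⟩ : ∃ r, n = r + 1 := ⟨n - 1, by omega⟩
    rw [finRotate_apply]
    apply Fin.ext
    by_cases hm : m = Fin.last r
    · subst hm
      simp
    · rw [Fin.val_add_one_of_lt (Fin.lt_last_iff_ne_last.mpr hm)]
      have h3 := Fin.lt_last_iff_ne_last.mpr hm
      have h4 : (m : ℕ) < r := h3
      exact (Nat.mod_eq_of_lt (by omega)).symm
  have h1 : ∀ a b c, a < b → b < c → c < n → 0 < area2 (q' a) (q' b) (q' c) := by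
    intro a b c hab hbc hc
    have := hq ⟨a, by omega⟩ ⟨b, by omega⟩ ⟨c, hc⟩ hab hbc
    rw [e1, e1, e1] at this
    exact this
  have h2 : ∀ a b, 0 < a → a < b → b < n → 0 < area2 (q' a) (q' b) (q' n) := by
    intro a b ha hab hb
    have e3 : q' n = q' 0 := by
      rw [hq']
      dsimp only
      congr 1
      exact Fin.ext (by simp)
    rw [e3, ← area_rot]
    exact h1 0 a b ha hab hb
  refine ⟨_, _, _, _, det_pos q' h1 h2 j k l hjk hkl l.2, det_pos q' h1 h2 i k l (hij.trans hjk) hkl l.2,
    det_pos q' h1 h2 i j l hij (hjk.trans hkl) l.2, det_pos q' h1 h2 i j k hij hjk k.2, ?_⟩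
  rw [e2, e2, e2, e2, e1 i, e1 j, e1 k, e1 l]
  exact line_eval _ _ _ _ _ _ _ _ _

theorem polar_rel {n : ℕ} {u : Fin n → ℝ × ℝ} (hu : ConvexOrder u) {i j k l : Fin n}
    (hij : i < j) (hjk : j < k) (hkl : k < l) (o x : ℝ × ℝ) :
    ∃ a b c d : ℝ, 0 < a ∧ 0 < b ∧ 0 < c ∧ 0 < d ∧
      a * (1 - ((u i).1 * (x.1 - o.1) + (u i).2 * (x.2 - o.2))) +
        c * (1 - ((u k).1 * (x.1 - o.1) + (u k).2 * (x.2 - o.2))) =
      b * (1 - ((u j).1 * (x.1 - o.1) + (u j).2 * (x.2 - o.2))) +
        d * (1 - ((u l).1 * (x.1 - o.1) + (u l).2 * (x.2 - o.2))) := by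
  refine ⟨_, _, _, _, hu j k l hjk hkl, hu i k l (hij.trans hjk) hkl,
    hu i j l hij (hjk.trans hkl), hu i j k hij hjk, ?_⟩
  unfold area2
  ring

/-- `H` consists of one of the two sides of each line `f i = 0`, all of the same kind:
all `0 ≤ f i`, or all `0 < f i`, or all `f i ≤ 0`, or all `f i < 0`. -/
def SameSides {n : ℕ} (f : Fin n → ℝ × ℝ → ℝ) (H : Fin n → Set (ℝ × ℝ)) : Prop :=
  (∀ i, H i = {x | 0 ≤ f i x}) ∨ (∀ i, H i = {x | 0 < f i x}) ∨ (∀ i, H i = {x | f i x ≤ 0}) ∨
    (∀ i, H i = {x | f i x < 0})

theorem intervals_of_rel {n : ℕ} {f : Fin n → ℝ × ℝ → ℝ} {H : Fin n → Set (ℝ × ℝ)}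
    (hS : SameSides f H)
    (hrel : ∀ (x : ℝ × ℝ) (i j k l : Fin n), i < j → j < k → k < l →
      ∃ a b c d : ℝ, 0 < a ∧ 0 < b ∧ 0 < c ∧ 0 < d ∧
        a * f i x + c * f k x = b * f j x + d * f l x)
    (p : Fin n → ℝ × ℝ) : CyclicIntervals p H := by
  obtain ⟨m, hm⟩ : ∃ m : Fin 4, ∀ i x, x ∈ H i ↔ SignSet m (f i x) := by
    rcases hS with h | h | h | h
    · exact ⟨0, fun i x => by rw [h i]; simp [SignSet]⟩
    · exact ⟨1, fun i x => by rw [h i]; simp [SignSet]⟩
    · exact ⟨2, fun i x => by rw [h i]; simp [SignSet]⟩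
    · exact ⟨3, fun i x => by rw [h i]; simp [SignSet]⟩
  intro t i j k l hij hjk hkl
  obtain ⟨a, b, c, d, ha, hb, hc, hd, h⟩ := hrel (p t) i j k l hij hjk hkl
  simp only [hm]
  exact sign_cross m ha hb hc hd h

/-- **Theorem.** Let `n ≥ 2` points and `n` sets (halfplanes) satisfy the Hall-type condition.
There is an alternating cyclic ordering in each of the following cases.
1. The sets can be numbered so that for every point the numbers of the sets containing it form a
cyclic interval.
2. The sets are halfplanes bounded by the sides of a strictly convex `n`-gon, all of the same kind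
(all closed and containing the `n`-gon, or all open and containing its interior, or all closed or
all open on the outer side).
3. The sets are `{x | ⟨u_i, x - o⟩ ≤ 1}` for all `i`, or `< 1`, or `≥ 1`, or `> 1` for all `i`,
where `u_1, …, u_n` are the vertices of a strictly convex polygon in their cyclic order. -/
theorem result (n : ℕ) (hn : 2 ≤ n) (p : Fin n → ℝ × ℝ) (H : Fin n → Set (ℝ × ℝ))
    (hHall : HallType p H) :
    (CyclicIntervals p H → HasAlternatingOrdering p H) ∧
    (∀ q : Fin n → ℝ × ℝ, 3 ≤ n → ConvexOrder q →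
      SameSides (fun i x => area2 (q i) (q (finRotate n i)) x) H →
      HasAlternatingOrdering p H) ∧
    (∀ (u : Fin n → ℝ × ℝ) (o : ℝ × ℝ), ConvexOrder u →
      SameSides (fun i x => 1 - ((u i).1 * (x.1 - o.1) + (u i).2 * (x.2 - o.2))) H →
      HasAlternatingOrdering p H) := by
  refine ⟨main hn hHall, ?_, ?_⟩
  · intro q _ hq hS
    apply main hn hHall
    apply intervals_of_rel hS
    intro x i j k l hij hjk hkl
    exact polygon_rel hq hij hjk hkl x
  · intro u o hu hS
    apply main hn hHall
    apply intervals_of_rel hS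
    intro x i j k l hij hjk hkl
    exact polar_rel hu hij hjk hkl o x

end Pool.Agent.Results.MP_3b4e7c_co.DualConvexH68
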